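import Pool.Agent.H78.Geo.Vec

/-!
# Short great-circle arcs
-/

namespace Pool.Agent.H78.Geo

open Set Filter Topology

theorem comb_ne_zero {a b c : E3} (h : det3 a b c ≠ 0) {s t : ℝ} (hst : s ≠ 0 ∨ t ≠ 0) :
    s • a + t • b ≠ 0 := by
  intro h0
  have h1 : det3 (s • a + t • b) b c = 0 := by rw [h0, det3_zero1]
  have h2 : det3 a (s • a + t • b) c = 0 := by rw [h0, det3_zero2]
  rw [det3_add1, det3_smul1, det3_smul1, det3_same12, mul_zero, add_zero] at h1
  rw [det3_add2, det3_smul2, det3_smul2, det3_same12, mul_zero, zero_add] at h2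
  rcases hst with hs | ht
  · exact (mul_ne_zero hs h) h1
  · exact (mul_ne_zero ht h) h2

/-- The parametrisation of the arc. -/
noncomputable def arcFun (a b : E3) (t : unitInterval) : S2 :=
  nrm ((1 - (t : ℝ)) • a + (t : ℝ) • b)

theorem one_sub_or (t : ℝ) : 1 - t ≠ 0 ∨ t ≠ 0 := by
  by_cases h : t = 0
  · left; rw [h]; norm_num
  · exact Or.inr h

theorem isArc_seg {a b c : E3} (h : det3 a b c ≠ 0) : IsArc (seg a b) (nrm a) (nrm b) := by
  refine ⟨arcFun a b, ?_, ?_, ?_, ?_, ?_⟩
  · rw [continuous_iff_continuousAt]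
    intro t
    have h1 : ContinuousAt (fun t : unitInterval => (1 - (t : ℝ)) • a + (t : ℝ) • b) t := by
      fun_prop
    exact ContinuousAt.comp (f := fun t : unitInterval => (1 - (t : ℝ)) • a + (t : ℝ) • b)
      (continuousAt_nrm (comb_ne_zero h (one_sub_or _))) h1
  · intro t t' htt
    obtain ⟨k, hk, hk2⟩ := eq_smul_of_nrm_eq (comb_ne_zero h (one_sub_or _))
      (comb_ne_zero h (one_sub_or _)) htt
    have h1 := congrArg (fun v => det3 v b c) hk2
    have h2 := congrArg (fun v => det3 a v c) hk2
    simp only [det3_add1, det3_smul1, det3_same12, mul_zero, add_zero] at h1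
    simp only [det3_add2, det3_smul2, det3_same12, mul_zero, zero_add] at h2
    have h3 : (1 - (t : ℝ)) = k * (1 - (t' : ℝ)) := by
      apply mul_right_cancel₀ h
      linarith
    have h4 : (t : ℝ) = k * (t' : ℝ) := by
      apply mul_right_cancel₀ h
      linarith
    have h5 : k = 1 := by linarith
    apply Subtype.ext
    rw [h4, h5, one_mul]
  · simp [arcFun]
  · simp [arcFun]
  · ext x
    constructor
    · rintro ⟨t, rfl⟩
      have hne := comb_ne_zero h (one_sub_or (t : ℝ))
      refine ⟨‖(1 - (t : ℝ)) • a + (t : ℝ) • b‖⁻¹ * (1 - (t : ℝ)),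
        ‖(1 - (t : ℝ)) • a + (t : ℝ) • b‖⁻¹ * t, ?_, ?_, ?_⟩
      · exact mul_nonneg (norm_inv_pos hne).le (by linarith [t.2.2])
      · exact mul_nonneg (norm_inv_pos hne).le t.2.1
      · rw [arcFun, nrm_coe hne, smul_add, smul_smul, smul_smul]
    · rintro ⟨s, t, hs, ht, hx⟩
      have hst : 0 < s + t := by
        rcases (add_nonneg hs ht).eq_or_lt with h0 | h0
        · exfalso
          have h1 : s = 0 := by linarith
          have h2 : t = 0 := by linarith
          rw [h1, h2, zero_smul, zero_smul, add_zero] at hx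
          exact x.ne_zero hx
        · exact h0
      refine ⟨⟨t / (s + t), div_nonneg ht hst.le, (div_le_one hst).2 (by linarith)⟩, ?_⟩
      have h1 : (1 - t / (s + t)) • a + (t / (s + t)) • b = (s + t)⁻¹ • (x : E3) := by
        rw [hx, smul_add, smul_smul, smul_smul]
        congr 1
        · congr 1
          field_simp
          ring
        · congr 1
          field_simp
      simp only [arcFun]
      rw [h1]
      exact nrm_smul_coe x (inv_pos.2 hst)

end Pool.Agent.H78.Geo
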