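import Pool.Agent.H78.Geo.Geod

/-!
# Convexity of geodesic drawings
-/

namespace Pool.Agent.H78.Geo

open Set Filter Topology Drawing

theorem component_eq {A B : Set S2} (hA : IsOpen A) (hB : IsOpen B) (hAB : Disjoint A B)
    (hpA : IsPreconnected A) {x : S2} (hx : x ∈ A) : connectedComponentIn (A ∪ B) x = A := by
  apply Subset.antisymm
  · exact isPreconnected_connectedComponentIn.subset_left_of_subset_union hA hB hAB
      (connectedComponentIn_subset _ _) ⟨x, mem_connectedComponentIn (Or.inl hx), hx⟩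
  · exact hpA.subset_connectedComponentIn hx subset_union_left

section
variable {V : Type} {P : V → E3}

/-- `T` is the positively oriented triple `a, b, c`. -/
structure Ori (P : V → E3) (T : Finset V) (a b c : V) : Prop where
  ab : a ≠ b
  ac : a ≠ c
  bc : b ≠ c
  pos : 0 < det3 (P a) (P b) (P c)
  mem : ∀ u, u ∈ T ↔ u = a ∨ u = b ∨ u = c

theorem exists_ori (h : GP P) {T : Finset V} (hT : T.card = 3) : ∃ a b c, Ori P T a b c := by
  classical
  obtain ⟨a, b, c, hab, hac, hbc, rfl⟩ := Finset.card_eq_three.1 hT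
  rcases lt_or_gt_of_ne (h.det a b c hab hac hbc) with h1 | h1
  · refine ⟨a, c, b, hac, hab, hbc.symm, ?_, ?_⟩
    · rw [det3_swap23]; linarith
    · intro u
      simp only [Finset.mem_insert, Finset.mem_singleton]
      tauto
  · refine ⟨a, b, c, hab, hac, hbc, h1, ?_⟩
    intro u
    simp only [Finset.mem_insert, Finset.mem_singleton]

variable (h : GP P) {T : Finset V} {a b c : V} (o : Ori P T a b c)
include o

theorem curve_eq : (geod P h).curve T = tcl (P a) (P b) (P c) \ tin (P a) (P b) (P c) := by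
  rw [← seg_union o.pos]
  ext x
  constructor
  · rintro ⟨u, hu, v, hv, huv, hx⟩
    rw [o.mem] at hu hv
    have hx' : x ∈ seg (P u) (P v) := hx
    rcases hu with rfl | rfl | rfl <;> rcases hv with rfl | rfl | rfl
    · exact absurd rfl huv
    · exact Or.inl (Or.inl hx')
    · rw [seg_symm] at hx'; exact Or.inr hx'
    · rw [seg_symm] at hx'; exact Or.inl (Or.inl hx')
    · exact absurd rfl huv
    · exact Or.inl (Or.inr hx')
    · exact Or.inr hx'
    · rw [seg_symm] at hx'; exact Or.inl (Or.inr hx')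
    · exact absurd rfl huv
  · rintro ((hx | hx) | hx)
    · exact ⟨a, (o.mem _).2 (Or.inl rfl), b, (o.mem _).2 (Or.inr (Or.inl rfl)), o.ab, hx⟩
    · exact ⟨b, (o.mem _).2 (Or.inr (Or.inl rfl)), c, (o.mem _).2 (Or.inr (Or.inr rfl)), o.bc, hx⟩
    · exact ⟨c, (o.mem _).2 (Or.inr (Or.inr rfl)), a, (o.mem _).2 (Or.inl rfl), o.ac.symm, hx⟩

theorem curve_compl : ((geod P h).curve T)ᶜ =
    tin (P a) (P b) (P c) ∪ (tcl (P a) (P b) (P c))ᶜ := by
  rw [curve_eq h o]
  ext x
  simp only [mem_compl_iff, Set.mem_sdiff, mem_union]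
  tauto

omit o in
theorem disj_tin : Disjoint (tin (P a) (P b) (P c)) (tcl (P a) (P b) (P c))ᶜ := by
  rw [Set.disjoint_left]
  intro x hx hx'
  exact hx' (Tin.cl hx)

theorem component_iff (C : Set S2) : IsComponent C ((geod P h).curve T)ᶜ ↔
    C = tin (P a) (P b) (P c) ∨ C = (tcl (P a) (P b) (P c))ᶜ := by
  have hd := disj_tin (P := P) (a := a) (b := b) (c := c)
  have ho1 := isOpen_tin (P a) (P b) (P c)
  have ho2 := (isClosed_tcl (P a) (P b) (P c)).isOpen_compl
  rw [curve_compl h o]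
  constructor
  · rintro ⟨x, hx | hx, rfl⟩
    · exact Or.inl (component_eq ho1 ho2 hd (isPreconnected_tin _ _ _) hx)
    · rw [union_comm]
      exact Or.inr (component_eq ho2 ho1 hd.symm (isPreconnected_compl_tcl o.pos) hx)
  · rintro (rfl | rfl)
    · have e1 : Tin (P a) (P b) (P c) (P a + P b + P c) := by
        refine ⟨?_, ?_, ?_⟩
        · rw [det3_add1, det3_add1, det3_same12, det3_same13]; linarith [o.pos]
        · rw [det3_add1, det3_add1, det3_same12, det3_same13, det3_rot (P a) (P b) (P c)]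
          linarith [o.pos]
        · rw [det3_add1, det3_add1, det3_same12, det3_same13, det3_rot' (P a) (P b) (P c)]
          linarith [o.pos]
      have hne : P a + P b + P c ≠ 0 := by
        intro h0
        have := e1.1
        rw [h0, det3_zero1] at this
        exact lt_irrefl _ this
      have hx : nrm (P a + P b + P c) ∈ tin (P a) (P b) (P c) := (tin_nrm hne).2 e1
      exact ⟨_, Or.inl hx, (component_eq ho1 ho2 hd (isPreconnected_tin _ _ _) hx).symm⟩
    · have hx : nrm (-P a) ∈ (tcl (P a) (P b) (P c))ᶜ := by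
        intro h1
        have h2 := ((tcl_nrm (neg_ne_zero.2 (ne_zero_of_det1 o.pos.ne'))).1 h1).1
        rw [det3_neg1] at h2
        linarith [o.pos]
      refine ⟨_, Or.inr hx, ?_⟩
      rw [union_comm]
      exact (component_eq ho2 ho1 hd.symm (isPreconnected_compl_tcl o.pos) hx).symm

theorem isSide_iff (Δ : Set S2) : (geod P h).IsSide T Δ ↔
    Δ = tcl (P a) (P b) (P c) ∨ Δ = (tin (P a) (P b) (P c))ᶜ := by
  constructor
  · rintro ⟨C, hC, rfl⟩
    rcases (component_iff h o C).1 hC with rfl | rfl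
    · exact Or.inl (closure_tin o.pos)
    · exact Or.inr (closure_compl_tcl o.pos)
  · rintro (rfl | rfl)
    · exact ⟨_, (component_iff h o _).2 (Or.inl rfl), (closure_tin o.pos).symm⟩
    · exact ⟨_, (component_iff h o _).2 (Or.inr rfl), (closure_compl_tcl o.pos).symm⟩

theorem tcl_convex : (geod P h).IsConvexSide T (tcl (P a) (P b) (P c)) := by
  refine ⟨(isSide_iff h o _).2 (Or.inl rfl), ?_⟩
  intro x y _ hx hy z hz
  obtain ⟨s, t, hs, ht, hz⟩ := hz
  have hx' := (tcl_nrm (h.ne_zero x)).1 hx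
  have hy' := (tcl_nrm (h.ne_zero y)).1 hy
  show Tcl _ _ _ _
  rw [hz]
  refine ⟨?_, ?_, ?_⟩ <;> rw [det3_add1, det3_smul1, det3_smul1]
  · exact add_nonneg (mul_nonneg hs hx'.1) (mul_nonneg ht hy'.1)
  · exact add_nonneg (mul_nonneg hs hx'.2.1) (mul_nonneg ht hy'.2.1)
  · exact add_nonneg (mul_nonneg hs hx'.2.2) (mul_nonneg ht hy'.2.2)

theorem not_compl_tin_subset {T' : Finset V} {a' b' c' : V} (o' : Ori P T' a' b' c')
    (hcur : (geod P h).curve T' ⊆ tcl (P a) (P b) (P c)) :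
    ¬ (tin (P a') (P b') (P c'))ᶜ ⊆ tcl (P a) (P b) (P c) := by
  intro hsub
  have hne := h.ne_zero a'
  have h1 : nrm (P a') ∈ (geod P h).curve T' := by
    refine ⟨a', (o'.mem _).2 (Or.inl rfl), b', (o'.mem _).2 (Or.inr (Or.inl rfl)), o'.ab, ?_⟩
    exact ⟨‖P a'‖⁻¹, 0, (norm_inv_pos hne).le, le_rfl, by
      rw [nrm_coe hne, zero_smul, add_zero]⟩
  have h2 := (tcl_nrm hne).1 (hcur h1)
  have h3 : nrm (-P a') ∈ (tin (P a') (P b') (P c'))ᶜ := by
    intro h4
    have h5 := ((tin_nrm (neg_ne_zero.2 hne)).1 h4).1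
    rw [det3_neg1] at h5
    linarith [o'.pos]
  have h6 := (tcl_nrm (neg_ne_zero.2 hne)).1 (hsub h3)
  apply hne
  apply eq_zero_of_det o.pos.ne'
  · have := h2.1
    have := h6.1
    rw [det3_neg1] at this
    linarith
  · have e1 := h2.2.1
    have e2 := h6.2.1
    rw [det3_neg1] at e2
    rw [← det3_rot (P a) (P a') (P c)]
    linarith
  · have e1 := h2.2.2
    have e2 := h6.2.2
    rw [det3_neg1] at e2
    rw [← det3_rot' (P a) (P b) (P a')]
    linarith

omit o

/-- Geodesic drawings are convex. -/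
theorem geod_isConvex : (geod P h).IsConvex := by
  intro T hT
  obtain ⟨a, b, c, o⟩ := exists_ori h hT
  exact ⟨_, tcl_convex h o⟩

/-- Geodesic drawings are h-convex. -/
theorem geod_isHConvex : (geod P h).IsHConvex := by
  classical
  have hex : ∀ T : Finset V, ∃ Δ : Set S2, T.card = 3 → ∃ a b c, Ori P T a b c ∧
      Δ = tcl (P a) (P b) (P c) := by
    intro T
    by_cases hT : T.card = 3
    · obtain ⟨a, b, c, o⟩ := exists_ori h hT
      exact ⟨_, fun _ => ⟨a, b, c, o, rfl⟩⟩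
    · exact ⟨∅, fun h => absurd h hT⟩
  choose Δ hΔ using hex
  refine ⟨Δ, ?_, ?_⟩
  · intro T hT
    obtain ⟨a, b, c, o, h1⟩ := hΔ T hT
    rw [h1]
    exact tcl_convex h o
  · intro T T' hT hT' hcur Δ' hs hsub
    obtain ⟨a, b, c, o, h1⟩ := hΔ T hT
    obtain ⟨a', b', c', o'⟩ := exists_ori h hT'
    rw [h1] at hcur hsub
    rcases (isSide_iff h o' Δ').1 hs with rfl | rfl
    · exact tcl_convex h o'
    · exact absurd hsub (not_compl_tin_subset h o o' hcur)

/-- The face of the drawing around a point inside a triangle is inside the triangle. -/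
theorem face_subset_tin (o : Ori P T a b c) {x : S2} (hx : x ∈ ((geod P h).image)ᶜ)
    (hxt : x ∈ tin (P a) (P b) (P c)) :
    connectedComponentIn ((geod P h).image)ᶜ x ⊆ tin (P a) (P b) (P c) := by
  have hsub : ((geod P h).image)ᶜ ⊆ tin (P a) (P b) (P c) ∪ (tcl (P a) (P b) (P c))ᶜ := by
    rw [← curve_compl h o]
    apply compl_subset_compl.2
    rintro y ⟨u, -, v, -, huv, hy⟩
    exact Or.inr ⟨u, v, huv, hy⟩
  exact isPreconnected_connectedComponentIn.subset_left_of_subset_union (isOpen_tin _ _ _)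
    (isClosed_tcl _ _ _).isOpen_compl (disj_tin (P := P) (a := a) (b := b) (c := c))
    ((connectedComponentIn_subset _ _).trans hsub) ⟨x, mem_connectedComponentIn hx, hxt⟩

/-- Criterion for f-convexity of geodesic drawings. -/
theorem geod_isFConvex [Nonempty V] (x₀ : E3)
    (hx : ∀ u v, u ≠ v → det3 x₀ (P u) (P v) ≠ 0)
    (hT : ∀ a b c, a ≠ b → a ≠ c → b ≠ c → 0 < det3 (P a) (P b) (P c) →
      Tin (P a) (P b) (P c) x₀ → ∀ u v, u ≠ v → ¬ Tin (P a) (P b) (P c) (P u) →
      ¬ Tin (P a) (P b) (P c) (P v) → ∀ s t : ℝ, 0 ≤ s → 0 ≤ t →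
      ¬ Tin (P a) (P b) (P c) (s • P u + t • P v)) : (geod P h).IsFConvex := by
  refine ⟨geod_isConvex h, ?_⟩
  have hx0 : x₀ ≠ 0 := by
    obtain ⟨u⟩ := ‹Nonempty V›
    obtain ⟨v, hv, -⟩ := h.three u u
    exact ne_zero_of_det1 (hx u v hv.symm)
  have himg : nrm x₀ ∈ ((geod P h).image)ᶜ := by
    rintro (⟨u, hu⟩ | ⟨u, v, huv, s, t, hs, ht, hst⟩)
    · obtain ⟨v, hv, -⟩ := h.three u u
      apply hx u v hv.symm
      have hu' : nrm (P u) = nrm x₀ := hu
      obtain ⟨k, -, hk⟩ := eq_smul_of_nrm_eq hx0 (h.ne_zero u) hu'.symm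
      rw [hk, det3_smul1, det3_same12, mul_zero]
    · apply hx u v huv
      rw [nrm_coe hx0] at hst
      have h1 : det3 (‖x₀‖⁻¹ • x₀) (P u) (P v) = 0 := by
        rw [hst, det3_add1, det3_smul1, det3_smul1, det3_same12, det3_same13]; ring
      rw [det3_smul1] at h1
      rcases mul_eq_zero.1 h1 with h2 | h2
      · exact absurd h2 (norm_inv_pos hx0).ne'
      · exact h2
  refine ⟨_, ⟨nrm x₀, himg, rfl⟩, ?_⟩
  intro T hT3 Δ hΔ hdisj
  obtain ⟨a, b, c, o⟩ := exists_ori h hT3
  rcases (isSide_iff h o Δ).1 hΔ with rfl | rfl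
  · exact tcl_convex h o
  · have hin : Tin (P a) (P b) (P c) x₀ := by
      by_contra hn
      have h1 : nrm x₀ ∈ (tin (P a) (P b) (P c))ᶜ := fun h2 => hn ((tin_nrm hx0).1 h2)
      exact Set.disjoint_left.1 hdisj h1 (mem_connectedComponentIn himg)
    refine ⟨hΔ, ?_⟩
    rintro u v huv hu hv z ⟨s, t, hs, ht, hz⟩ hzt
    have hu' : ¬ Tin (P a) (P b) (P c) (P u) := fun h1 => hu ((tin_nrm (h.ne_zero u)).2 h1)
    have hv' : ¬ Tin (P a) (P b) (P c) (P v) := fun h1 => hv ((tin_nrm (h.ne_zero v)).2 h1)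
    apply hT a b c o.ab o.ac o.bc o.pos hin u v huv hu' hv' s t hs ht
    rw [← hz]
    exact hzt

/-- Criterion for a geodesic drawing not to be f-convex. -/
theorem geod_not_isFConvex
    (hcov : ∀ x : E3, ∃ a b c d, a ≠ b ∧ a ≠ c ∧ b ≠ c ∧ 0 < det3 (P a) (P b) (P c) ∧
      Tcl (P a) (P b) (P c) x ∧ 0 < det3 (P d) (P b) (P c) ∧ 0 < det3 (P d) (P c) (P a) ∧
      det3 (P d) (P a) (P b) < 0) : ¬ (geod P h).IsFConvex := by
  classical
  rintro ⟨-, Γ, ⟨x, hx, rfl⟩, hT⟩
  obtain ⟨a, b, c, d, hab, hac, hbc, hpos, hxT, hd1, hd2, hd3⟩ := hcov x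
  have o : Ori P {a, b, c} a b c := ⟨hab, hac, hbc, hpos, by simp⟩
  have hxt : x ∈ tin (P a) (P b) (P c) := by
    by_contra hn
    have h1 : x ∈ (geod P h).curve {a, b, c} := by
      rw [curve_eq h o]
      exact ⟨hxT, hn⟩
    obtain ⟨u, -, v, -, huv, hy⟩ := h1
    exact hx (Or.inr ⟨u, v, huv, hy⟩)
  have hsub := face_subset_tin h o hx hxt
  have hcd : c ≠ d := by
    rintro rfl
    rw [det3_rot' (P a) (P b) (P c)] at hd3
    linarith
  have hconv := hT {a, b, c} (by
    rw [Finset.card_eq_three]; exact ⟨a, b, c, hab, hac, hbc, rfl⟩) _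
    ((isSide_iff h o _).2 (Or.inr rfl))
    (Set.disjoint_left.2 fun y hy hy' => hy (hsub hy'))
  have h1 := hconv.2 c d hcd
    (by
      intro h2
      have h3 := ((tin_nrm (h.ne_zero c)).1 h2).1
      rw [det3_same13] at h3
      exact lt_irrefl _ h3)
    (by
      intro h2
      have h3 := ((tin_nrm (h.ne_zero d)).1 h2).2.2
      linarith)
  -- a point of the edge inside the triangle
  set ε : ℝ := det3 (P a) (P b) (P c) / (-2 * det3 (P d) (P a) (P b)) with hε
  have hden : 0 < -2 * det3 (P d) (P a) (P b) := by linarith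
  have hε0 : 0 < ε := div_pos hpos hden
  have hv : Tin (P a) (P b) (P c) (P c + ε • P d) := by
    refine ⟨?_, ?_, ?_⟩
    · rw [det3_add1, det3_smul1, det3_same13, zero_add]
      exact mul_pos hε0 hd1
    · rw [det3_add1, det3_smul1, det3_same12, zero_add]
      exact mul_pos hε0 hd2
    · rw [det3_add1, det3_smul1, det3_rot' (P a) (P b) (P c)]
      have : ε * det3 (P d) (P a) (P b) = - det3 (P a) (P b) (P c) / 2 := by
        have h9 : det3 (P d) (P a) (P b) ≠ 0 := hd3.ne
        rw [hε]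
        field_simp
      rw [this]
      linarith
  have hne : P c + ε • P d ≠ 0 := by
    intro h0
    have := hv.1
    rw [h0, det3_zero1] at this
    exact lt_irrefl _ this
  have hmem : nrm (P c + ε • P d) ∈ (geod P h).edge c d := by
    refine ⟨‖P c + ε • P d‖⁻¹, ‖P c + ε • P d‖⁻¹ * ε, (norm_inv_pos hne).le,
      mul_nonneg (norm_inv_pos hne).le hε0.le, ?_⟩
    rw [nrm_coe hne, smul_add, smul_smul]
  exact h1 hmem ((tin_nrm hne).2 hv)

end

end Pool.Agent.H78.Geo
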