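import Pool.Agent.H78.Geo.Vec

/-!
# Transversal crossings of short great-circle arcs
-/

namespace Pool.Agent.H78.Geo

open Set Filter Topology

theorem dot_add (u v w : E3) : dot u (v + w) = dot u v + dot u w := by
  simp only [dot, PiLp.add_apply]; ring
theorem dot_smul (u v : E3) (r : ℝ) : dot u (r • v) = r * dot u v := by
  simp only [dot, PiLp.smul_apply, smul_eq_mul]; ring
theorem dot_crs (u v w : E3) : dot u (crs v w) = det3 u v w := by
  simp only [dot, crs_0, crs_1, crs_2, det3]; ring
theorem dot_crs' (u v w : E3) : dot (crs u v) w = det3 u v w := by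
  simp only [dot, crs_0, crs_1, crs_2, det3]; ring
theorem dot_zero (u : E3) : dot u 0 = 0 := by simp [dot]

theorem dot_self (x : S2) : dot (x : E3) x = 1 := by
  have h := x.norm
  rw [EuclideanSpace.norm_eq] at h
  rw [Real.sqrt_eq_one] at h
  simp only [Fin.sum_univ_three, Real.norm_eq_abs, sq_abs] at h
  simp only [dot]
  linarith [h, sq ((x : E3) 0), sq ((x : E3) 1), sq ((x : E3) 2)]

theorem continuous_dot (u : E3) : Continuous fun y : S2 => dot u (y : E3) := by
  have h : ∀ i : Fin 3, Continuous fun y : S2 => (y : E3) i := fun i =>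
    (EuclideanSpace.proj (𝕜 := ℝ) i).continuous.comp continuous_subtype_val
  have h0 := h 0
  have h1 := h 1
  have h2 := h 2
  unfold dot
  fun_prop

/-- Dual basis expansion. -/
theorem dual_expand (u v w y : E3) :
    det3 u v w • y = dot u y • crs v w + dot v y • crs w u + dot w y • crs u v := by
  apply E3.ext <;> simp only [det3, dot, PiLp.add_apply, PiLp.smul_apply, smul_eq_mul, crs_0,
    crs_1, crs_2] <;> ring

/-- Gnomonic chart at `x` in the directions given by `u` and `v`. -/
noncomputable def chart (u v : E3) (x : S2) (hux : dot u x = 0) (hvx : dot v x = 0)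
    (hk : det3 u v x ≠ 0) : OpenPartialHomeomorph S2 (ℝ × ℝ) where
  toFun y := (dot u y / dot (x : E3) y, dot v y / dot (x : E3) y)
  invFun p := nrm ((x : E3) + (p.1 * (det3 u v x)⁻¹) • crs v x + (p.2 * (det3 u v x)⁻¹) • crs x u)
  source := {y | 0 < dot (x : E3) y}
  target := univ
  map_source' _ _ := mem_univ _
  map_target' p _ := by
    have h1 : dot (x : E3) ((x : E3) + (p.1 * (det3 u v x)⁻¹) • crs v x +
        (p.2 * (det3 u v x)⁻¹) • crs x u) = 1 := by
      rw [dot_add, dot_add, dot_smul, dot_smul, dot_crs, dot_crs, det3_same13, det3_same12,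
        dot_self]
      ring
    have h0 : ((x : E3) + (p.1 * (det3 u v x)⁻¹) • crs v x +
        (p.2 * (det3 u v x)⁻¹) • crs x u) ≠ 0 := by
      intro h
      rw [h, dot_zero] at h1
      norm_num at h1
    show 0 < dot (x : E3) (nrm _)
    rw [nrm_coe h0, dot_smul, h1, mul_one]
    exact norm_inv_pos h0
  left_inv' y hy := by
    have hy' : 0 < dot (x : E3) y := hy
    have h2 : (dot (x : E3) y)⁻¹ • (y : E3) =
        ((x : E3) + (dot u y / dot (x : E3) y * (det3 u v x)⁻¹) • crs v x +
        (dot v y / dot (x : E3) y * (det3 u v x)⁻¹) • crs x u) := by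
      have h3 : det3 u v x • (x : E3) = crs u v := by
        have := dual_expand u v x x
        rw [hux, hvx, dot_self] at this
        simpa using this
      have h5 : det3 u v x • (y : E3) = dot u y • crs v x + dot v y • crs x u +
          (dot (x : E3) y * det3 u v x) • (x : E3) := by
        rw [dual_expand u v x y, ← h3, smul_smul]
      calc (dot (x : E3) y)⁻¹ • (y : E3)
          = ((dot (x : E3) y)⁻¹ * (det3 u v x)⁻¹) • (det3 u v x • (y : E3)) := by
            rw [smul_smul]; congr 1; field_simp
        _ = ((dot (x : E3) y)⁻¹ * (det3 u v x)⁻¹) • (dot u y • crs v x + dot v y • crs x u +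
          (dot (x : E3) y * det3 u v x) • (x : E3)) := by rw [h5]
        _ = _ := by match_scalars <;> field_simp
    show nrm _ = y
    simp only
    rw [← h2]
    exact nrm_smul_coe y (inv_pos.2 hy')
  right_inv' p _ := by
    set z : E3 := ((x : E3) + (p.1 * (det3 u v x)⁻¹) • crs v x +
        (p.2 * (det3 u v x)⁻¹) • crs x u) with hz
    have h1 : dot (x : E3) z = 1 := by
      rw [hz, dot_add, dot_add, dot_smul, dot_smul, dot_crs, dot_crs, det3_same13, det3_same12,
        dot_self]
      ring
    have h2 : dot u z = p.1 := by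
      rw [hz, dot_add, dot_add, dot_smul, dot_smul, dot_crs, dot_crs, det3_same13, hux]
      field_simp
      ring
    have h3 : dot v z = p.2 := by
      rw [hz, dot_add, dot_add, dot_smul, dot_smul, dot_crs, dot_crs, det3_same12, hvx,
        det3_rot u v x]
      field_simp
      ring
    have h0 : z ≠ 0 := by
      intro h
      rw [h, dot_zero] at h1
      norm_num at h1
    have h4 := norm_inv_pos h0
    show (dot u (nrm z) / dot (x : E3) (nrm z), dot v (nrm z) / dot (x : E3) (nrm z)) = p
    rw [nrm_coe h0, dot_smul, dot_smul, dot_smul, h1, h2, h3]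
    ext
    · simp only
      field_simp
    · simp only
      field_simp
  open_source := isOpen_lt continuous_const (continuous_dot _)
  open_target := isOpen_univ
  continuousOn_toFun := by
    apply ContinuousOn.prodMk
    · exact (continuous_dot u).continuousOn.div (continuous_dot (x : E3)).continuousOn
        fun y hy => (ne_of_gt hy)
    · exact (continuous_dot v).continuousOn.div (continuous_dot (x : E3)).continuousOn
        fun y hy => (ne_of_gt hy)
  continuousOn_invFun := by
    rw [continuousOn_univ, continuous_iff_continuousAt]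
    intro p
    have h1 : dot (x : E3) ((x : E3) + (p.1 * (det3 u v x)⁻¹) • crs v x +
        (p.2 * (det3 u v x)⁻¹) • crs x u) = 1 := by
      rw [dot_add, dot_add, dot_smul, dot_smul, dot_crs, dot_crs, det3_same13, det3_same12,
        dot_self]
      ring
    have h0 : ((x : E3) + (p.1 * (det3 u v x)⁻¹) • crs v x +
        (p.2 * (det3 u v x)⁻¹) • crs x u) ≠ 0 := by
      intro h
      rw [h, dot_zero] at h1
      norm_num at h1
    have h2 : ContinuousAt (fun p : ℝ × ℝ => (x : E3) + (p.1 * (det3 u v x)⁻¹) • crs v x +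
        (p.2 * (det3 u v x)⁻¹) • crs x u) p := by fun_prop
    exact ContinuousAt.comp (f := fun p : ℝ × ℝ => (x : E3) + (p.1 * (det3 u v x)⁻¹) • crs v x +
        (p.2 * (det3 u v x)⁻¹) • crs x u) (continuousAt_nrm h0) h2

theorem det3_crs_pos {a b : E3} (h : crs a b ≠ 0) : 0 < det3 a b (crs a b) := by
  rw [← dot_crs']
  simp only [dot]
  by_contra hn
  apply h
  apply E3.ext
  · show _ = (0 : ℝ)
    nlinarith [mul_self_nonneg (crs a b 0), mul_self_nonneg (crs a b 1),
      mul_self_nonneg (crs a b 2)]
  · show _ = (0 : ℝ)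
    nlinarith [mul_self_nonneg (crs a b 0), mul_self_nonneg (crs a b 1),
      mul_self_nonneg (crs a b 2)]
  · show _ = (0 : ℝ)
    nlinarith [mul_self_nonneg (crs a b 0), mul_self_nonneg (crs a b 1),
      mul_self_nonneg (crs a b 2)]

/-- Transversal crossing of two short arcs at a point in the interior of both. -/
theorem crossAt_seg {a b c d : E3} (x : S2) {s t s' t' : ℝ} (hs : 0 < s) (ht : 0 < t)
    (hs' : 0 < s') (ht' : 0 < t') (hx : (x : E3) = s • a + t • b) (hx' : (x : E3) = s' • c + t' • d)
    (hcda : det3 c d a ≠ 0) (hab : crs a b ≠ 0) (hcd : crs c d ≠ 0) :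
    CrossAt (seg a b) (seg c d) x := by
  have h1 : det3 a b x = 0 := by
    rw [hx, det3_add3, det3_smul3, det3_smul3, det3_same13, det3_same23]; ring
  have h2 : det3 c d x = 0 := by
    rw [hx', det3_add3, det3_smul3, det3_smul3, det3_same13, det3_same23]; ring
  have h3 : s * det3 c d a + t * det3 c d b = 0 := by
    rw [← det3_smul3, ← det3_smul3, ← det3_add3, ← hx, h2]
  have hk : det3 (crs c d) (crs a b) x ≠ 0 := by
    have h4 : t * det3 (crs c d) (crs a b) x = - det3 c d a := by
      have h5 := dot_self x
      have h6 : t * det3 (crs c d) (crs a b) x = det3 c d x * dot a x - det3 c d a *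
          dot (s • a + t • b) x := by
        rw [hx]
        simp only [det3, dot, crs_0, crs_1, crs_2, PiLp.add_apply, PiLp.smul_apply, smul_eq_mul]
        ring
      rw [h6, h2, ← hx, h5]
      ring
    intro h0
    rw [h0, mul_zero] at h4
    exact hcda (by linarith)
  have hu : dot (crs c d) (x : E3) = 0 := by rw [dot_crs', h2]
  have hv : dot (crs a b) (x : E3) = 0 := by rw [dot_crs', h1]
  have hpa := det3_crs_pos hab
  have hpc := det3_crs_pos hcd
  let U : Set S2 := ({y | 0 < det3 (y : E3) b (crs a b)} ∩ {y | 0 < det3 a (y : E3) (crs a b)}) ∩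
    ({y | 0 < det3 (y : E3) d (crs c d)} ∩ {y | 0 < det3 c (y : E3) (crs c d)})
  have hU : IsOpen U := by
    refine IsOpen.inter (IsOpen.inter ?_ ?_) (IsOpen.inter ?_ ?_)
    · exact isOpen_lt continuous_const (continuous_det3_1 _ _)
    · exact isOpen_lt continuous_const (continuous_det3_2 _ _)
    · exact isOpen_lt continuous_const (continuous_det3_1 _ _)
    · exact isOpen_lt continuous_const (continuous_det3_2 _ _)
  have hxU : x ∈ U := by
    refine ⟨⟨?_, ?_⟩, ⟨?_, ?_⟩⟩
    · show 0 < det3 (x : E3) b (crs a b)
      rw [hx, det3_add1, det3_smul1, det3_smul1, det3_same12]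
      nlinarith
    · show 0 < det3 a (x : E3) (crs a b)
      rw [hx, det3_add2, det3_smul2, det3_smul2, det3_same12]
      nlinarith
    · show 0 < det3 (x : E3) d (crs c d)
      rw [hx', det3_add1, det3_smul1, det3_smul1, det3_same12]
      nlinarith
    · show 0 < det3 c (x : E3) (crs c d)
      rw [hx', det3_add2, det3_smul2, det3_smul2, det3_same12]
      nlinarith
  refine ⟨(chart (crs c d) (crs a b) x hu hv hk).restrOpen U hU, ?_, ?_, ?_⟩
  · rw [OpenPartialHomeomorph.restrOpen_source]
    refine ⟨?_, hxU⟩
    show 0 < dot (x : E3) x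
    rw [dot_self]; exact one_pos
  · show (dot (crs c d) (x : E3) / dot (x : E3) x, dot (crs a b) (x : E3) / dot (x : E3) x) = (0, 0)
    rw [hu, hv, zero_div]
  · intro y hy
    rw [OpenPartialHomeomorph.restrOpen_source] at hy
    have hy1 : 0 < dot (x : E3) y := hy.1
    have hy2 := hy.2
    constructor
    · rw [mem_seg_iff hpa]
      show _ ↔ dot (crs a b) (y : E3) / dot (x : E3) y = 0
      rw [dot_crs', div_eq_zero_iff]
      constructor
      · exact fun h => Or.inl h.1
      · rintro (h | h)
        · exact ⟨h, hy2.1.1.le, hy2.1.2.le⟩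
        · exact absurd h hy1.ne'
    · rw [mem_seg_iff hpc]
      show _ ↔ dot (crs c d) (y : E3) / dot (x : E3) y = 0
      rw [dot_crs', div_eq_zero_iff]
      constructor
      · exact fun h => Or.inl h.1
      · rintro (h | h)
        · exact ⟨h, hy2.2.1.le, hy2.2.2.le⟩
        · exact absurd h hy1.ne'

end Pool.Agent.H78.Geo
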