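import Mathlib

/-!
# Drawings of complete graphs on the sphere: convex, h-convex and f-convex drawings

Statement-level definitions for MP_406ab0_co.
-/

namespace Pool.Agent.H78.Geo

open Set

/-- The unit sphere in three-dimensional Euclidean space. -/
abbrev S2 : Type := Metric.sphere (0 : EuclideanSpace ℝ (Fin 3)) 1

/-- `A` is a simple arc with end points `p` and `q`. -/
def IsArc (A : Set S2) (p q : S2) : Prop :=
  ∃ γ : unitInterval → S2, Continuous γ ∧ Function.Injective γ ∧ γ 0 = p ∧ γ 1 = q ∧ range γ = A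

/-- `A` and `B` cross transversally at `x`: a homeomorphism from an open neighbourhood of `x` onto
an open subset of the plane maps `x` to the origin, `A` to the horizontal axis and `B` to the
vertical axis. -/
def CrossAt (A B : Set S2) (x : S2) : Prop :=
  ∃ φ : OpenPartialHomeomorph S2 (ℝ × ℝ), x ∈ φ.source ∧ φ x = (0, 0) ∧
    ∀ y ∈ φ.source, (y ∈ A ↔ (φ y).2 = 0) ∧ (y ∈ B ↔ (φ y).1 = 0)

/-- A drawing of the complete graph with vertex set `V` on the sphere (`edge u v` is irrelevant for
`u = v`). -/
structure Drawing (V : Type) where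
  /-- the points representing the vertices -/
  pt : V → S2
  /-- the arcs representing the edges -/
  edge : V → V → Set S2
  pt_injective : Function.Injective pt
  edge_symm : ∀ u v, edge u v = edge v u
  isArc : ∀ u v, u ≠ v → IsArc (edge u v) (pt u) (pt v)
  vertex : ∀ u v w, u ≠ v → pt w ∈ edge u v → w = u ∨ w = v
  finite : ∀ u v w z, u ≠ v → w ≠ z → s(u, v) ≠ s(w, z) → (edge u v ∩ edge w z).Finite
  transversal : ∀ u v w z, u ≠ v → w ≠ z → s(u, v) ≠ s(w, z) →
    ∀ x ∈ edge u v ∩ edge w z, (∀ i, x ≠ pt i) → CrossAt (edge u v) (edge w z) x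

namespace Drawing

variable {V W : Type}

/-- The drawing is good: edges with a common end do not cross, and any two edges cross at most
once. -/
structure IsGood (D : Drawing V) : Prop where
  adjacent : ∀ u v w, u ≠ v → u ≠ w → v ≠ w → D.edge u v ∩ D.edge u w = {D.pt u}
  cross_le_one : ∀ u v w z, u ≠ v → w ≠ z → u ≠ w → u ≠ z → v ≠ w → v ≠ z →
    (D.edge u v ∩ D.edge w z).Subsingleton

/-- The drawing induced on the complete subgraph given by the injection `f`. -/
def comap (D : Drawing V) (f : W ↪ V) : Drawing W where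
  pt w := D.pt (f w)
  edge w z := D.edge (f w) (f z)
  pt_injective := D.pt_injective.comp f.injective
  edge_symm _ _ := D.edge_symm _ _
  isArc _ _ h := D.isArc _ _ (f.injective.ne h)
  vertex _ _ _ h hw := by
    rcases D.vertex _ _ _ (f.injective.ne h) hw with h | h
    · exact Or.inl (f.injective h)
    · exact Or.inr (f.injective h)
  finite u v w z h1 h2 h3 := D.finite _ _ _ _ (f.injective.ne h1) (f.injective.ne h2) (by
    intro h
    apply h3
    have := Sym2.map.injective f.injective (a₁ := s(u, v)) (a₂ := s(w, z)) (by simpa using h)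
    exact this)
  transversal u v w z h1 h2 h3 x hx hxi := by
    by_cases h : ∀ i, x ≠ D.pt i
    · refine D.transversal _ _ _ _ (f.injective.ne h1) (f.injective.ne h2) ?_ x hx h
      intro h
      apply h3
      have := Sym2.map.injective f.injective (a₁ := s(u, v)) (a₂ := s(w, z)) (by simpa using h)
      exact this
    · push Not at h
      obtain ⟨i, rfl⟩ := h
      rcases D.vertex _ _ _ (f.injective.ne h1) hx.1 with h | h
      · exact absurd (congrArg D.pt h) (hxi u)
      · exact absurd (congrArg D.pt h) (hxi v)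

/-- The set `D[K]` of all points of the drawing. -/
def image (D : Drawing V) : Set S2 :=
  range D.pt ∪ {x | ∃ u v, u ≠ v ∧ x ∈ D.edge u v}

/-- The closed curve `D[T]` of a 3-cycle, given by its set `T` of three vertices. -/
def curve (D : Drawing V) (T : Finset V) : Set S2 :=
  {x | ∃ u ∈ T, ∃ v ∈ T, u ≠ v ∧ x ∈ D.edge u v}

/-- `C` is a connected component of the subspace `X`. -/
def IsComponent (C X : Set S2) : Prop := ∃ x ∈ X, C = connectedComponentIn X x

/-- The faces of the drawing. -/
def IsFace (D : Drawing V) (Γ : Set S2) : Prop := IsComponent Γ D.imageᶜ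

/-- The sides of the closed curve `D[T]`, that is, the closures of the components of its
complement. -/
def IsSide (D : Drawing V) (T : Finset V) (Δ : Set S2) : Prop :=
  ∃ C, IsComponent C (D.curve T)ᶜ ∧ Δ = closure C

/-- `Δ` is a convex side of the 3-cycle `T`. -/
def IsConvexSide (D : Drawing V) (T : Finset V) (Δ : Set S2) : Prop :=
  D.IsSide T Δ ∧ ∀ x y, x ≠ y → D.pt x ∈ Δ → D.pt y ∈ Δ → D.edge x y ⊆ Δ

/-- Convex drawings: every 3-cycle has a convex side. -/
def IsConvex (D : Drawing V) : Prop := ∀ T : Finset V, T.card = 3 → ∃ Δ, D.IsConvexSide T Δ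

/-- h-convex drawings. -/
def IsHConvex (D : Drawing V) : Prop :=
  ∃ Δ : Finset V → Set S2, (∀ T, T.card = 3 → D.IsConvexSide T (Δ T)) ∧
    ∀ T T', T.card = 3 → T'.card = 3 → D.curve T' ⊆ Δ T →
      ∀ Δ', D.IsSide T' Δ' → Δ' ⊆ Δ T → D.IsConvexSide T' Δ'

/-- f-convex drawings. -/
def IsFConvex (D : Drawing V) : Prop :=
  D.IsConvex ∧ ∃ Γ, D.IsFace Γ ∧
    ∀ T : Finset V, T.card = 3 → ∀ Δ, D.IsSide T Δ → Disjoint Δ Γ → D.IsConvexSide T Δ

end Drawing

end Pool.Agent.H78.Geo
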