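import Pool.Agent.H78.Geo.Nine

/-!
# The drawing of `K_9` and its induced drawings of `K_8`
-/

namespace Pool.Agent.H78.Geo

open Set Filter Topology Drawing

theorem T3_pos_iff (i j k : Fin 9) : 0 < det3 (P9 i) (P9 j) (P9 k) ↔ 0 < T3 i j k := by
  rw [P9, P9, P9, det3_vec]
  exact_mod_cast Iff.rfl

theorem X3_pos_iff (i j k : Fin 9) : 0 < det3 (vec (xz i)) (P9 j) (P9 k) ↔ 0 < X3 i j k := by
  rw [P9, P9, det3_vec]
  exact_mod_cast Iff.rfl

theorem inB_iff (a b c u : Fin 9) : inB a b c u = true ↔ Tin (P9 a) (P9 b) (P9 c) (P9 u) := by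
  simp only [inB, Bool.and_eq_true, decide_eq_true_eq, Tin, T3_pos_iff, and_assoc]

theorem okf_sep {a b c u v j k : Fin 9} (hD : 0 < det3 (P9 a) (P9 b) (P9 c))
    (h : okf a b c u v j k = true) {s t : ℝ} (hs : 0 ≤ s) (ht : 0 ≤ t) :
    ¬ Tin (P9 a) (P9 b) (P9 c) (s • P9 u + t • P9 v) := by
  simp only [okf, Bool.and_eq_true, decide_eq_true_eq] at h
  obtain ⟨⟨⟨⟨⟨ha, hb⟩, hc⟩, hu⟩, hv⟩, hsum⟩ := h
  have e : ∀ i, (det3 (P9 i) (P9 j) (P9 k)) = (T3 i j k : ℝ) := fun i => by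
    rw [P9, P9, P9, det3_vec]; rfl
  have ha' : 0 ≤ det3 (P9 a) (P9 j) (P9 k) := by rw [e]; exact_mod_cast ha
  have hb' : 0 ≤ det3 (P9 b) (P9 j) (P9 k) := by rw [e]; exact_mod_cast hb
  have hc' : 0 ≤ det3 (P9 c) (P9 j) (P9 k) := by rw [e]; exact_mod_cast hc
  have hu' : det3 (P9 u) (P9 j) (P9 k) ≤ 0 := by rw [e]; exact_mod_cast hu
  have hv' : det3 (P9 v) (P9 j) (P9 k) ≤ 0 := by rw [e]; exact_mod_cast hv
  have hs' : 0 < det3 (P9 a) (P9 j) (P9 k) + det3 (P9 b) (P9 j) (P9 k) +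
      det3 (P9 c) (P9 j) (P9 k) := by rw [e, e, e]; exact_mod_cast hsum
  intro hT
  set z : E3 := s • P9 u + t • P9 v with hz
  have h1 : det3 z (P9 j) (P9 k) ≤ 0 := by
    rw [hz, det3_add1, det3_smul1, det3_smul1]
    nlinarith [mul_nonneg hs (neg_nonneg.2 hu'), mul_nonneg ht (neg_nonneg.2 hv')]
  have h2 : det3 (P9 a) (P9 b) (P9 c) * det3 z (P9 j) (P9 k) =
      det3 z (P9 b) (P9 c) * det3 (P9 a) (P9 j) (P9 k) +
      det3 z (P9 c) (P9 a) * det3 (P9 b) (P9 j) (P9 k) +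
      det3 z (P9 a) (P9 b) * det3 (P9 c) (P9 j) (P9 k) := by
    have := congrArg (fun y => det3 y (P9 j) (P9 k)) (cramer (P9 a) (P9 b) (P9 c) z)
    simp only [det3_add1, det3_smul1] at this
    rw [this, det3_rot (P9 a) z (P9 c), det3_rot' (P9 a) (P9 b) z]
  obtain ⟨g1, g2, g3⟩ := hT
  have h3 : det3 (P9 a) (P9 b) (P9 c) * det3 z (P9 j) (P9 k) ≤ 0 :=
    mul_nonpos_of_nonneg_of_nonpos hD.le h1
  have k1 := mul_nonneg g1.le ha'
  have k2 := mul_nonneg g2.le hb'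
  have k3 := mul_nonneg g3.le hc'
  have z1 : det3 (P9 a) (P9 j) (P9 k) = 0 := by
    rcases mul_eq_zero.1 (show det3 z (P9 b) (P9 c) * det3 (P9 a) (P9 j) (P9 k) = 0 by linarith)
      with h | h
    · exact absurd h g1.ne'
    · exact h
  have z2 : det3 (P9 b) (P9 j) (P9 k) = 0 := by
    rcases mul_eq_zero.1 (show det3 z (P9 c) (P9 a) * det3 (P9 b) (P9 j) (P9 k) = 0 by linarith)
      with h | h
    · exact absurd h g2.ne'
    · exact h
  have z3 : det3 (P9 c) (P9 j) (P9 k) = 0 := by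
    rcases mul_eq_zero.1 (show det3 z (P9 a) (P9 b) * det3 (P9 c) (P9 j) (P9 k) = 0 by linarith)
      with h | h
    · exact absurd h g3.ne'
    · exact h
  linarith

theorem sep_of_chk {i a b c u v : Fin 9} (ha : a ≠ i) (hb : b ≠ i) (hc : c ≠ i) (hab : a ≠ b)
    (hD : 0 < det3 (P9 a) (P9 b) (P9 c)) (hx : Tin (P9 a) (P9 b) (P9 c) (vec (xz i)))
    (hui : u ≠ i) (hvi : v ≠ i) (huv : u ≠ v) (hu : ¬ Tin (P9 a) (P9 b) (P9 c) (P9 u))
    (hv : ¬ Tin (P9 a) (P9 b) (P9 c) (P9 v)) {s t : ℝ} (hs : 0 ≤ s) (ht : 0 ≤ t) :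
    ¬ Tin (P9 a) (P9 b) (P9 c) (s • P9 u + t • P9 v) := by
  have h := chk_all i
  rw [chk, List.all_eq_true] at h
  have h1 := h a (List.mem_finRange a)
  rw [Bool.or_eq_true, List.all_eq_true] at h1
  have h2 := (h1.resolve_left (by simpa using ha)) b (List.mem_finRange b)
  rw [Bool.or_eq_true, List.all_eq_true] at h2
  have h3 := (h2.resolve_left (by simp [hb, hab.symm])) c (List.mem_finRange c)
  rw [Bool.or_eq_true, List.all_eq_true] at h3
  have hD' := (T3_pos_iff a b c).1 hD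
  obtain ⟨x1, x2, x3⟩ := hx
  rw [X3_pos_iff] at x1 x2 x3
  have h4 := (h3.resolve_left (by simp [hc, hD', x1, x2, x3])) u (List.mem_finRange u)
  rw [← inB_iff, Bool.not_eq_true] at hu hv
  rw [Bool.or_eq_true, List.all_eq_true] at h4
  have h5 := (h4.resolve_left (by simp [hui, hu])) v (List.mem_finRange v)
  rw [Bool.or_eq_true] at h5
  have h6 := h5.resolve_left (by simp [hvi, huv.symm, hv])
  simp only [sepB, Bool.or_eq_true] at h6
  rcases h6 with (((((((((((((((h6 | h6) | h6) | h6) | h6) | h6) | h6) | h6) | h6) | h6) | h6) |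
    h6) | h6) | h6) | h6) | h6) | h6 <;> exact okf_sep hD h6 hs ht

/-- The geodesic drawing of `K_9`. -/
noncomputable def D9 : Drawing (Fin 9) := geod P9 gp9

theorem D9_not_isFConvex : ¬ D9.IsFConvex := geod_not_isFConvex gp9 cov_all

theorem D9_comap_isFConvex (f : Fin 8 ↪ Fin 9) : (D9.comap f).IsFConvex := by
  have hgp : GP (P9 ∘ f) :=
    { det := fun u v w h1 h2 h3 => gp9.det _ _ _ (f.injective.ne h1) (f.injective.ne h2)
        (f.injective.ne h3)
      three := by decide }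
  have hD : D9.comap f = geod (P9 ∘ f) hgp := rfl
  obtain ⟨i, hi⟩ : ∃ i, ∀ u, f u ≠ i := by
    by_contra hn
    push Not at hn
    have := Fintype.card_le_of_surjective f hn
    simp at this
  rw [hD]
  refine geod_isFConvex hgp (vec (xz i)) ?_ ?_
  · intro u v huv
    show det3 (vec (xz i)) (vec (pz (f u))) (vec (pz (f v))) ≠ 0
    rw [det3_vec]
    exact_mod_cast X3_ne i (f u) (f v) (hi u) (hi v) (f.injective.ne huv)
  · intro a b c hab _ _ hD' hT u v huv hu hv s t hs ht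
    exact sep_of_chk (hi a) (hi b) (hi c) (f.injective.ne hab) hD' hT (hi u) (hi v)
      (f.injective.ne huv) hu hv hs ht

end Pool.Agent.H78.Geo
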