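import Pool.Agent.H78.Geo.Tri
import Pool.Agent.H78.Geo.Arc
import Pool.Agent.H78.Geo.Cross

/-!
# Geodesic drawings of complete graphs
-/

namespace Pool.Agent.H78.Geo

open Set Filter Topology

/-- General position: no three of the points are linearly dependent. -/
structure GP {V : Type} (P : V → E3) : Prop where
  det : ∀ u v w, u ≠ v → u ≠ w → v ≠ w → det3 (P u) (P v) (P w) ≠ 0
  three : ∀ u v : V, ∃ w, w ≠ u ∧ w ≠ v

section
variable {V : Type} {P : V → E3}

theorem GP.ne_zero (h : GP P) (u : V) : P u ≠ 0 := by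
  obtain ⟨v, hv, -⟩ := h.three u u
  obtain ⟨w, hw1, hw2⟩ := h.three u v
  exact ne_zero_of_det1 (h.det u v w hv.symm hw1.symm hw2.symm)

theorem GP.nrm_injective (h : GP P) : Function.Injective fun u => nrm (P u) := by
  intro u v huv
  by_contra hne
  obtain ⟨w, hw1, hw2⟩ := h.three u v
  obtain ⟨k, -, hk⟩ := eq_smul_of_nrm_eq (h.ne_zero u) (h.ne_zero v) huv
  apply h.det u v w hne hw1.symm hw2.symm
  rw [hk, det3_smul1, det3_same12, mul_zero]

theorem GP.not_mem_seg (h : GP P) {u v w : V} (huv : u ≠ v) (hw : nrm (P w) ∈ seg (P u) (P v)) :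
    w = u ∨ w = v := by
  by_contra hn
  push Not at hn
  obtain ⟨s, t, -, -, hx⟩ := hw
  rw [nrm_coe (h.ne_zero w)] at hx
  have h1 : det3 (P u) (P v) (‖P w‖⁻¹ • P w) = 0 := by
    rw [hx, det3_add3, det3_smul3, det3_smul3, det3_same13, det3_same23]; ring
  rw [det3_smul3] at h1
  rcases mul_eq_zero.1 h1 with h2 | h2
  · exact (norm_inv_pos (h.ne_zero w)).ne' h2
  · exact h.det u v w huv hn.1.symm hn.2.symm h2

theorem GP.adjacent (h : GP P) {u v w : V} (huv : u ≠ v) (huw : u ≠ w) (hvw : v ≠ w) :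
    seg (P u) (P v) ∩ seg (P u) (P w) = {nrm (P u)} := by
  ext x
  constructor
  · rintro ⟨⟨s, t, hs, ht, hx⟩, ⟨s', t', hs', ht', hx'⟩⟩
    have h1 : det3 (P u) x (P w) = 0 := by
      rw [hx', det3_add2, det3_smul2, det3_smul2, det3_same12, det3_same23]; ring
    rw [hx, det3_add2, det3_smul2, det3_smul2, det3_same12, mul_zero, zero_add] at h1
    have h2 : t = 0 := by
      rcases mul_eq_zero.1 h1 with h3 | h3
      · exact h3
      · exact absurd h3 (h.det u v w huv huw hvw)
    rw [h2, zero_smul, add_zero] at hx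
    have hs0 : 0 < s := by
      rcases hs.eq_or_lt with h3 | h3
      · rw [← h3, zero_smul] at hx
        exact absurd hx x.ne_zero
      · exact h3
    rw [mem_singleton_iff, ← nrm_self x, hx, nrm_smul (h.ne_zero u) hs0]
  · rintro rfl
    have h1 := norm_inv_pos (h.ne_zero u)
    refine ⟨⟨‖P u‖⁻¹, 0, h1.le, le_rfl, ?_⟩, ⟨‖P u‖⁻¹, 0, h1.le, le_rfl, ?_⟩⟩ <;>
    rw [nrm_coe (h.ne_zero u), zero_smul, add_zero]

theorem GP.coeff_pos (h : GP P) {u v w z : V} (_ : u ≠ v) (hwz : w ≠ z) (huw : u ≠ w)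
    (huz : u ≠ z) (hvw : v ≠ w) (hvz : v ≠ z) {x : S2} {s t s' t' : ℝ}
    (hs : 0 ≤ s) (ht : 0 ≤ t) (hx : (x : E3) = s • P u + t • P v)
    (hx' : (x : E3) = s' • P w + t' • P z) : 0 < s ∧ 0 < t := by
  have h1 : det3 x (P w) (P z) = 0 := by
    rw [hx', det3_add1, det3_smul1, det3_smul1, det3_same12, det3_same13]; ring
  rw [hx, det3_add1, det3_smul1, det3_smul1] at h1
  have hu := h.det u w z huw huz hwz
  have hv := h.det v w z hvw hvz hwz
  constructor
  · rcases hs.eq_or_lt with h3 | h3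
    · exfalso
      rw [← h3] at h1 hx
      rcases mul_eq_zero.1 (by linarith : t * det3 (P v) (P w) (P z) = 0) with h4 | h4
      · rw [h4, zero_smul, zero_smul, add_zero] at hx
        exact x.ne_zero hx
      · exact hv h4
    · exact h3
  · rcases ht.eq_or_lt with h3 | h3
    · exfalso
      rw [← h3] at h1 hx
      rcases mul_eq_zero.1 (by linarith : s * det3 (P u) (P w) (P z) = 0) with h4 | h4
      · rw [h4, zero_smul, zero_smul, add_zero] at hx
        exact x.ne_zero hx
      · exact hu h4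
    · exact h3

theorem GP.subsingleton (h : GP P) {u v w z : V} (huv : u ≠ v) (hwz : w ≠ z) (huw : u ≠ w)
    (huz : u ≠ z) (hvw : v ≠ w) (hvz : v ≠ z) :
    (seg (P u) (P v) ∩ seg (P w) (P z)).Subsingleton := by
  rintro x ⟨⟨s, t, hs, ht, hx⟩, ⟨s', t', hs', ht', hx'⟩⟩ y ⟨⟨p, q, hp, hq, hy⟩, ⟨p', q', hp', hq', hy'⟩⟩
  obtain ⟨hs0, ht0⟩ := h.coeff_pos huv hwz huw huz hvw hvz hs ht hx hx'
  obtain ⟨hp0, hq0⟩ := h.coeff_pos huv hwz huw huz hvw hvz hp hq hy hy'
  have h1 : det3 x (P w) (P z) = 0 := by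
    rw [hx', det3_add1, det3_smul1, det3_smul1, det3_same12, det3_same13]; ring
  have h2 : det3 y (P w) (P z) = 0 := by
    rw [hy', det3_add1, det3_smul1, det3_smul1, det3_same12, det3_same13]; ring
  rw [hx, det3_add1, det3_smul1, det3_smul1] at h1
  rw [hy, det3_add1, det3_smul1, det3_smul1] at h2
  have hu := h.det u w z huw huz hwz
  have h3 : p * t = s * q := by
    apply mul_right_cancel₀ (h.det v w z hvw hvz hwz)
    linear_combination p * h1 - s * h2
  have h4 : (x : E3) = (s / p) • (y : E3) := by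
    rw [hx, hy, smul_add, smul_smul, smul_smul]
    congr 1
    · congr 1
      field_simp
    · congr 1
      field_simp
      linarith
  rw [← nrm_self x, h4]
  exact nrm_smul_coe y (div_pos hs0 hp0)

theorem GP.seg_finite (h : GP P) {u v w z : V} (huv : u ≠ v) (hwz : w ≠ z)
    (hne : s(u, v) ≠ s(w, z)) : (seg (P u) (P v) ∩ seg (P w) (P z)).Finite := by
  by_cases huw : u = w
  · subst huw
    have hvz : v ≠ z := fun e => hne (by rw [e])
    rw [h.adjacent huv hwz hvz]
    exact finite_singleton _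
  by_cases huz : u = z
  · subst huz
    have hvw : v ≠ w := fun e => hne (by rw [e]; exact Sym2.eq_swap)
    rw [seg_symm (P w), h.adjacent huv (Ne.symm hwz) hvw]
    exact finite_singleton _
  by_cases hvw : v = w
  · subst hvw
    rw [seg_symm (P u), h.adjacent huv.symm hwz huz]
    exact finite_singleton _
  by_cases hvz : v = z
  · subst hvz
    rw [seg_symm (P u), seg_symm (P w), h.adjacent huv.symm hwz.symm huw]
    exact finite_singleton _
  exact (h.subsingleton huv hwz huw huz hvw hvz).finite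

theorem crs_ne_zero {a b c : E3} (h : det3 a b c ≠ 0) : crs a b ≠ 0 := by
  intro h0
  apply h
  rw [← dot_crs', h0]
  simp [dot]

theorem GP.transversal (h : GP P) {u v w z : V} (huv : u ≠ v) (hwz : w ≠ z)
    (hne : s(u, v) ≠ s(w, z)) (x : S2) (hx : x ∈ seg (P u) (P v) ∩ seg (P w) (P z))
    (hxi : ∀ i, x ≠ nrm (P i)) : CrossAt (seg (P u) (P v)) (seg (P w) (P z)) x := by
  by_cases huw : u = w
  · subst huw
    have hvz : v ≠ z := fun e => hne (by rw [e])
    rw [h.adjacent huv hwz hvz] at hx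
    exact absurd hx (hxi u)
  by_cases huz : u = z
  · subst huz
    have hvw : v ≠ w := fun e => hne (by rw [e]; exact Sym2.eq_swap)
    rw [seg_symm (P w), h.adjacent huv (Ne.symm hwz) hvw] at hx
    exact absurd hx (hxi u)
  by_cases hvw : v = w
  · subst hvw
    rw [seg_symm (P u), h.adjacent huv.symm hwz huz] at hx
    exact absurd hx (hxi v)
  by_cases hvz : v = z
  · subst hvz
    rw [seg_symm (P u), seg_symm (P w), h.adjacent huv.symm hwz.symm huw] at hx
    exact absurd hx (hxi v)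
  obtain ⟨⟨s, t, hs, ht, hx1⟩, ⟨s', t', hs', ht', hx2⟩⟩ := hx
  obtain ⟨hs0, ht0⟩ := h.coeff_pos huv hwz huw huz hvw hvz hs ht hx1 hx2
  obtain ⟨hs0', ht0'⟩ := h.coeff_pos hwz huv (Ne.symm huw) (Ne.symm hvw) (Ne.symm huz)
    (Ne.symm hvz) hs' ht' hx2 hx1
  exact crossAt_seg x hs0 ht0 hs0' ht0' hx1 hx2
    (h.det w z u hwz (Ne.symm huw) (Ne.symm huz)) (crs_ne_zero (h.det u v w huv huw hvw))
    (crs_ne_zero (h.det w z u hwz (Ne.symm huw) (Ne.symm huz)))

/-- The geodesic drawing. -/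
noncomputable def geod (P : V → E3) (h : GP P) : Drawing V where
  pt u := nrm (P u)
  edge u v := seg (P u) (P v)
  pt_injective := h.nrm_injective
  edge_symm u v := seg_symm _ _
  isArc u v huv := by
    obtain ⟨w, hw1, hw2⟩ := h.three u v
    exact isArc_seg (h.det u v w huv hw1.symm hw2.symm)
  vertex u v w huv hw := h.not_mem_seg huv hw
  finite u v w z huv hwz hne := h.seg_finite huv hwz hne
  transversal u v w z huv hwz hne x hx hxi := h.transversal huv hwz hne x hx hxi

theorem geod_isGood (h : GP P) : (geod P h).IsGood where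
  adjacent _ _ _ h1 h2 h3 := h.adjacent h1 h2 h3
  cross_le_one _ _ _ _ h1 h2 h3 h4 h5 h6 := h.subsingleton h1 h2 h3 h4 h5 h6

end

end Pool.Agent.H78.Geo
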