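import Pool.Agent.H78.Geo.Conv

/-!
# The nine points
-/

namespace Pool.Agent.H78.Geo

open Set Filter Topology Drawing

/-- The integer coordinates of the nine points. -/
def pz : Fin 9 → Fin 3 → ℤ :=
  ![![-2, 1, -1], ![0, -1, 1], ![-1, 1, 2], ![0, 1, 1], ![1, -2, 1], ![3, -1, 0], ![2, -2, -1],
    ![1, 1, 3], ![3, 1, 0]]

/-- The integer coordinates of the witnesses for the induced drawings of `K_8`. -/
def xz : Fin 9 → Fin 3 → ℤ :=
  ![![-1, -1, 1], ![0, -2, -1], ![1, 2, 1], ![-2, -1, 2], ![-2, -1, -1], ![-2, 1, -2],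
    ![1, -1, -1], ![-2, -1, 2], ![1, 2, 0]]

/-- Integer determinant. -/
def dz (u v w : Fin 3 → ℤ) : ℤ :=
  u 0 * (v 1 * w 2 - v 2 * w 1) - u 1 * (v 0 * w 2 - v 2 * w 0) + u 2 * (v 0 * w 1 - v 1 * w 0)

/-- The real vector with given integer coordinates. -/
noncomputable def vec (u : Fin 3 → ℤ) : E3 := WithLp.toLp 2 fun k => (u k : ℝ)

theorem det3_vec (u v w : Fin 3 → ℤ) : det3 (vec u) (vec v) (vec w) = (dz u v w : ℝ) := by
  simp [det3, vec, dz]

/-- Determinants of triples of points. -/
def T3 (i j k : Fin 9) : ℤ := dz (pz i) (pz j) (pz k)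

/-- Determinants of a witness and two points. -/
def X3 (i j k : Fin 9) : ℤ := dz (xz i) (pz j) (pz k)

theorem T3_ne : ∀ u v w : Fin 9, u ≠ v → u ≠ w → v ≠ w → T3 u v w ≠ 0 := by decide +kernel

theorem X3_ne : ∀ i u v : Fin 9, u ≠ i → v ≠ i → u ≠ v → X3 i u v ≠ 0 := by decide +kernel

/-- The functional `det(·, j, k)` separates. -/
def okf (a b c u v j k : Fin 9) : Bool :=
  decide (0 ≤ T3 a j k) && decide (0 ≤ T3 b j k) && decide (0 ≤ T3 c j k) &&
    decide (T3 u j k ≤ 0) && decide (T3 v j k ≤ 0) && decide (0 < T3 a j k + T3 b j k + T3 c j k)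

/-- Separation test. -/
def sepB (a b c u v : Fin 9) : Bool :=
  okf a b c u v b c || okf a b c u v c a || okf a b c u v a b || okf a b c u v u v ||
  okf a b c u v v u || okf a b c u v a u || okf a b c u v u a || okf a b c u v b u ||
  okf a b c u v u b || okf a b c u v c u || okf a b c u v u c || okf a b c u v a v ||
  okf a b c u v v a || okf a b c u v b v || okf a b c u v v b || okf a b c u v c v ||
  okf a b c u v v c

/-- Inside test. -/
def inB (a b c u : Fin 9) : Bool :=
  decide (0 < T3 u b c) && decide (0 < T3 u c a) && decide (0 < T3 u a b)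

/-- Test for one witness. -/
def chk (i : Fin 9) : Bool :=
  (List.finRange 9).all fun a => decide (a = i) || (List.finRange 9).all fun b =>
    decide (b = i) || decide (b = a) || (List.finRange 9).all fun c =>
    decide (c = i) || decide (T3 a b c ≤ 0) || !(decide (0 < X3 i b c) &&
      decide (0 < X3 i c a) && decide (0 < X3 i a b)) ||
    (List.finRange 9).all fun u => decide (u = i) || inB a b c u ||
      (List.finRange 9).all fun v => decide (v = i) || decide (v = u) || inB a b c v ||
        sepB a b c u v

set_option maxRecDepth 100000 in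
theorem chk_all : ∀ i, chk i = true := by decide +kernel

/-- The nine points as real vectors. -/
noncomputable def P9 (i : Fin 9) : E3 := vec (pz i)

theorem gp9 : GP P9 where
  det u v w h1 h2 h3 := by
    rw [P9, P9, P9, det3_vec]
    exact_mod_cast T3_ne u v w h1 h2 h3
  three := by decide

/-- The conclusion of the covering statement. -/
def Cov (v : E3) : Prop := ∃ a b c d, a ≠ b ∧ a ≠ c ∧ b ≠ c ∧ 0 < det3 (P9 a) (P9 b) (P9 c) ∧
      Tcl (P9 a) (P9 b) (P9 c) v ∧ 0 < det3 (P9 d) (P9 b) (P9 c) ∧
      0 < det3 (P9 d) (P9 c) (P9 a) ∧ det3 (P9 d) (P9 a) (P9 b) < 0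

theorem leaf (v : E3) (a b c d : Fin 9)
    (h : a ≠ b ∧ a ≠ c ∧ b ≠ c ∧ 0 < T3 a b c ∧ 0 < T3 d b c ∧ 0 < T3 d c a ∧ T3 d a b < 0)
    (h1 : 0 ≤ det3 v (vec (pz b)) (vec (pz c))) (h2 : 0 ≤ det3 v (vec (pz c)) (vec (pz a)))
    (h3 : 0 ≤ det3 v (vec (pz a)) (vec (pz b))) : Cov v := by
  obtain ⟨h4, h5, h6, h7, h8, h9, h10⟩ := h
  refine ⟨a, b, c, d, h4, h5, h6, ?_, ⟨h1, h2, h3⟩, ?_, ?_, ?_⟩
  · rw [P9, P9, P9, det3_vec]; exact_mod_cast h7
  · rw [P9, P9, P9, det3_vec]; exact_mod_cast h8
  · rw [P9, P9, P9, det3_vec]; exact_mod_cast h9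
  · rw [P9, P9, P9, det3_vec]; exact_mod_cast h10

theorem cov_all (v : E3) : Cov v := by
  generalize hx : v 0 = x
  generalize hy : v 1 = y
  generalize hz : v 2 = z
  rcases le_total 0 (-x + 3 * y - 8 * z) with h0 | h0
  · rcases le_total 0 (x - 3 * y - 5 * z) with h1 | h1
    · rcases le_total 0 (3 * x + 4 * y - 2 * z) with h2 | h2
      · exact leaf v 8 6 0 5 (by decide +kernel)
          (by simp [det3, vec, pz]; linarith)
          (by simp [det3, vec, pz]; linarith)
          (by simp [det3, vec, pz]; linarith)
      · exact leaf v 6 1 0 4 (by decide +kernel)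
          (by simp [det3, vec, pz]; linarith)
          (by simp [det3, vec, pz]; linarith)
          (by simp [det3, vec, pz]; linarith)
    · rcases le_total 0 (3 * x + 4 * y - 2 * z) with h2 | h2
      · exact leaf v 2 8 0 7 (by decide +kernel)
          (by simp [det3, vec, pz]; linarith)
          (by simp [det3, vec, pz]; linarith)
          (by simp [det3, vec, pz]; linarith)
      · exact leaf v 4 3 0 7 (by decide +kernel)
          (by simp [det3, vec, pz]; linarith)
          (by simp [det3, vec, pz]; linarith)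
          (by simp [det3, vec, pz]; linarith)
  · rcases le_total 0 (x - 3 * y - 5 * z) with h1 | h1
    · rcases le_total 0 (3 * x + 4 * y - 2 * z) with h2 | h2
      · exact leaf v 8 1 6 2 (by decide +kernel)
          (by simp [det3, vec, pz]; linarith)
          (by simp [det3, vec, pz]; linarith)
          (by simp [det3, vec, pz]; linarith)
      · rcases le_total 0 (-3 * x - 2 * y - 2 * z) with h3 | h3
        · exact leaf v 6 1 0 4 (by decide +kernel)
            (by simp [det3, vec, pz]; linarith)
            (by simp [det3, vec, pz]; linarith)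
            (by simp [det3, vec, pz]; linarith)
        · exact leaf v 3 1 6 2 (by decide +kernel)
            (by simp [det3, vec, pz]; linarith)
            (by simp [det3, vec, pz]; linarith)
            (by simp [det3, vec, pz]; linarith)
    · rcases le_total 0 (3 * x + 4 * y - 2 * z) with h2 | h2
      · rcases le_total 0 (x - 3 * y + 2 * z) with h3 | h3
        · exact leaf v 2 4 8 1 (by decide +kernel)
            (by simp [det3, vec, pz]; linarith)
            (by simp [det3, vec, pz]; linarith)
            (by simp [det3, vec, pz]; linarith)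
        · exact leaf v 2 8 0 7 (by decide +kernel)
            (by simp [det3, vec, pz]; linarith)
            (by simp [det3, vec, pz]; linarith)
            (by simp [det3, vec, pz]; linarith)
      · rcases le_total 0 (-3 * x - y + z) with h3 | h3
        · exact leaf v 4 3 0 7 (by decide +kernel)
            (by simp [det3, vec, pz]; linarith)
            (by simp [det3, vec, pz]; linarith)
            (by simp [det3, vec, pz]; linarith)
        · exact leaf v 3 1 6 2 (by decide +kernel)
            (by simp [det3, vec, pz]; linarith)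
            (by simp [det3, vec, pz]; linarith)
            (by simp [det3, vec, pz]; linarith)

end Pool.Agent.H78.Geo
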