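import Pool.Agent.H78.Geo.Vec

/-!
# Spherical triangles and their sides
-/

namespace Pool.Agent.H78.Geo

open Set Filter Topology

theorem nrm1_pos {v : E3} (hv : v ≠ 0) (b c : E3) :
    0 < det3 (nrm v) b c ↔ 0 < det3 v b c := by
  rw [nrm_coe hv, det3_smul1]
  exact mul_pos_iff_of_pos_left (norm_inv_pos hv)

theorem nrm1_nonneg {v : E3} (hv : v ≠ 0) (b c : E3) :
    0 ≤ det3 (nrm v) b c ↔ 0 ≤ det3 v b c := by
  rw [nrm_coe hv, det3_smul1]
  exact mul_nonneg_iff_of_pos_left (norm_inv_pos hv)

theorem nrm1_neg {v : E3} (hv : v ≠ 0) (b c : E3) :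
    det3 (nrm v) b c < 0 ↔ det3 v b c < 0 := by
  have := nrm1_nonneg hv b c
  rw [← not_le, ← not_le, this]

/-- The open cone over the triangle `abc`. -/
def Tin (a b c v : E3) : Prop := 0 < det3 v b c ∧ 0 < det3 v c a ∧ 0 < det3 v a b

/-- The closed cone over the triangle `abc`. -/
def Tcl (a b c v : E3) : Prop := 0 ≤ det3 v b c ∧ 0 ≤ det3 v c a ∧ 0 ≤ det3 v a b

theorem Tin.cl {a b c v : E3} (h : Tin a b c v) : Tcl a b c v := ⟨h.1.le, h.2.1.le, h.2.2.le⟩

theorem tin_nrm {a b c v : E3} (hv : v ≠ 0) : Tin a b c (nrm v) ↔ Tin a b c v := by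
  simp only [Tin, nrm1_pos hv]

theorem tcl_nrm {a b c v : E3} (hv : v ≠ 0) : Tcl a b c (nrm v) ↔ Tcl a b c v := by
  simp only [Tcl, nrm1_nonneg hv]

/-- The open triangle. -/
def tin (a b c : E3) : Set S2 := {y | Tin a b c y}

/-- The closed triangle. -/
def tcl (a b c : E3) : Set S2 := {y | Tcl a b c y}

theorem isOpen_tin (a b c : E3) : IsOpen (tin a b c) :=
  (isOpen_lt continuous_const (continuous_det3_1 _ _)).inter
    ((isOpen_lt continuous_const (continuous_det3_1 _ _)).inter
      (isOpen_lt continuous_const (continuous_det3_1 _ _)))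

theorem isClosed_tcl (a b c : E3) : IsClosed (tcl a b c) :=
  (isClosed_le continuous_const (continuous_det3_1 _ _)).inter
    ((isClosed_le continuous_const (continuous_det3_1 _ _)).inter
      (isClosed_le continuous_const (continuous_det3_1 _ _)))

theorem isPreconnected_nrm {K : Set E3} (hK : Convex ℝ K) (h0 : ∀ v ∈ K, v ≠ 0) :
    IsPreconnected (nrm '' K) :=
  hK.isPreconnected.image _ fun v hv => (continuousAt_nrm (h0 v hv)).continuousWithinAt

theorem convex_pos (b c : E3) : Convex ℝ {v : E3 | 0 < det3 v b c} := by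
  intro x hx y hy s t hs ht hst
  show 0 < det3 (s • x + t • y) b c
  rw [det3_add1, det3_smul1, det3_smul1]
  have hx' : 0 < det3 x b c := hx
  have hy' : 0 < det3 y b c := hy
  rcases hs.eq_or_lt with h | h
  · subst h
    have : t = 1 := by linarith
    subst this
    linarith
  · have := mul_pos h hx'
    have := mul_nonneg ht hy'.le
    linarith

theorem convex_neg (b c : E3) : Convex ℝ {v : E3 | det3 v b c < 0} := by
  have := convex_pos c b
  convert this using 1
  ext v
  simp only [mem_ofPred_eq]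
  rw [det3_swap23 v b c]
  constructor <;> intro h <;> linarith

theorem isPreconnected_tin (a b c : E3) : IsPreconnected (tin a b c) := by
  have h : tin a b c = nrm '' ({v : E3 | 0 < det3 v b c} ∩
      ({v : E3 | 0 < det3 v c a} ∩ {v : E3 | 0 < det3 v a b})) := by
    ext y
    constructor
    · intro hy
      exact ⟨y, hy, nrm_self y⟩
    · rintro ⟨v, hv, rfl⟩
      have hv0 : v ≠ 0 := by
        rintro rfl
        have := hv.1
        simp only [mem_ofPred_eq, det3_zero1, lt_self_iff_false] at this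
      exact (tin_nrm hv0).2 hv
  rw [h]
  refine isPreconnected_nrm ((convex_pos _ _).inter ((convex_pos _ _).inter (convex_pos _ _))) ?_
  rintro v hv rfl
  have := hv.1
  simp only [mem_ofPred_eq, det3_zero1, lt_self_iff_false] at this

theorem isPreconnected_half (b c : E3) : IsPreconnected {y : S2 | det3 y b c < 0} := by
  have h : {y : S2 | det3 y b c < 0} = nrm '' {v : E3 | det3 v b c < 0} := by
    ext y
    constructor
    · intro hy
      exact ⟨y, hy, nrm_self y⟩
    · rintro ⟨v, hv, rfl⟩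
      have hv0 : v ≠ 0 := by
        rintro rfl
        simp only [mem_ofPred_eq, det3_zero1, lt_self_iff_false] at hv
      exact (nrm1_neg hv0 _ _).2 hv
  rw [h]
  refine isPreconnected_nrm (convex_neg _ _) ?_
  rintro v hv rfl
  simp only [mem_ofPred_eq, det3_zero1, lt_self_iff_false] at hv

theorem compl_tcl (a b c : E3) : (tcl a b c)ᶜ =
    {y : S2 | det3 y b c < 0} ∪ ({y : S2 | det3 y c a < 0} ∪ {y : S2 | det3 y a b < 0}) := by
  ext y
  simp only [tcl, Tcl, mem_compl_iff, mem_ofPred_eq, mem_union, not_and_or, not_le]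

section
variable {a b c : E3} (h : 0 < det3 a b c)
include h

theorem isPreconnected_compl_tcl : IsPreconnected (tcl a b c)ᶜ := by
  rw [compl_tcl]
  have e1 : det3 (-(a + b + c)) b c < 0 := by
    rw [det3_neg1, det3_add1, det3_add1, det3_same12, det3_same13]; linarith
  have e2 : det3 (-(a + b + c)) c a < 0 := by
    rw [det3_neg1, det3_add1, det3_add1, det3_same12, det3_same13, det3_rot]; linarith
  have e3 : det3 (-(a + b + c)) a b < 0 := by
    rw [det3_neg1, det3_add1, det3_add1, det3_same12, det3_same13, det3_rot']; linarith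
  have hne : -(a + b + c) ≠ 0 := by
    intro h0
    rw [h0, det3_zero1] at e1
    exact lt_irrefl _ e1
  have m1 := (nrm1_neg hne b c).2 e1
  have m2 := (nrm1_neg hne c a).2 e2
  have m3 := (nrm1_neg hne a b).2 e3
  refine IsPreconnected.union (nrm (-(a + b + c))) m1 (Or.inl m2) (isPreconnected_half _ _) ?_
  exact IsPreconnected.union (nrm (-(a + b + c))) m2 m3 (isPreconnected_half _ _)
    (isPreconnected_half _ _)

theorem closure_tin : closure (tin a b c) = tcl a b c := by
  apply Subset.antisymm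
  · exact closure_minimal (fun y hy => Tin.cl hy) (isClosed_tcl _ _ _)
  · intro y hy
    apply mem_closure_of_push (a + b + c)
    filter_upwards [self_mem_nhdsWithin] with t ht
    have ht' : 0 < t := ht
    have hv : Tin a b c ((y : E3) + t • (a + b + c)) := by
      refine ⟨?_, ?_, ?_⟩
      · rw [det3_add1, det3_smul1, det3_add1, det3_add1, det3_same12, det3_same13]
        nlinarith [hy.1]
      · rw [det3_add1, det3_smul1, det3_add1, det3_add1, det3_same12, det3_same13,
          det3_rot a b c]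
        nlinarith [hy.2.1]
      · rw [det3_add1, det3_smul1, det3_add1, det3_add1, det3_same12, det3_same13,
          det3_rot' a b c]
        nlinarith [hy.2.2]
    have hne : (y : E3) + t • (a + b + c) ≠ 0 := by
      intro h0
      have := hv.1
      rw [h0, det3_zero1] at this
      exact lt_irrefl _ this
    exact (tin_nrm hne).2 hv

theorem closure_compl_tcl : closure (tcl a b c)ᶜ = (tin a b c)ᶜ := by
  apply Subset.antisymm
  · exact closure_minimal (compl_subset_compl.2 fun y hy => Tin.cl hy)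
      (isOpen_tin _ _ _).isClosed_compl
  · have gen : ∀ (y : S2) (u v w : E3), 0 < det3 u v w → det3 y v w ≤ 0 →
        (∀ z : S2, det3 z v w < 0 → z ∈ (tcl a b c)ᶜ) → y ∈ closure (tcl a b c)ᶜ := by
      intro y u v w huvw hy hz
      apply mem_closure_of_push (-u)
      filter_upwards [self_mem_nhdsWithin] with t ht
      have ht' : 0 < t := ht
      have h1 : det3 ((y : E3) + t • (-u)) v w < 0 := by
        rw [det3_add1, det3_smul1, det3_neg1]
        nlinarith
      have hne : (y : E3) + t • (-u) ≠ 0 := by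
        intro h0
        rw [h0, det3_zero1] at h1
        exact lt_irrefl _ h1
      exact hz _ ((nrm1_neg hne _ _).2 h1)
    intro y hy
    have hy' : det3 y b c ≤ 0 ∨ det3 y c a ≤ 0 ∨ det3 y a b ≤ 0 := by
      by_contra hn
      push Not at hn
      exact hy hn
    rw [compl_tcl] at gen ⊢
    rcases hy' with h1 | h1 | h1
    · exact gen y a b c h h1 fun z hz => Or.inl hz
    · exact gen y b c a (by rwa [det3_rot]) h1 fun z hz => Or.inr (Or.inl hz)
    · exact gen y c a b (by rwa [det3_rot']) h1 fun z hz => Or.inr (Or.inr hz)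

theorem mem_seg_iff' (x : S2) :
    x ∈ seg a b ↔ det3 x a b = 0 ∧ 0 ≤ det3 x b c ∧ 0 ≤ det3 x c a := by
  rw [mem_seg_iff h, det3_rot' a b (x : E3), det3_rot a (x : E3) c]

theorem seg_union : seg a b ∪ seg b c ∪ seg c a = tcl a b c \ tin a b c := by
  ext y
  simp only [mem_union, Set.mem_sdiff, mem_seg_iff' h, mem_seg_iff' (show 0 < det3 b c a by rwa [det3_rot]),
    mem_seg_iff' (show 0 < det3 c a b by rwa [det3_rot'])]
  simp only [tcl, tin, Tcl, Tin]
  constructor
  · rintro ((⟨h1, h2, h3⟩ | ⟨h1, h2, h3⟩) | ⟨h1, h2, h3⟩)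
    · exact ⟨⟨h2, h3, h1.ge⟩, fun h => h.2.2.ne' h1⟩
    · exact ⟨⟨h1.ge, h2, h3⟩, fun h => h.1.ne' h1⟩
    · exact ⟨⟨h3, h1.ge, h2⟩, fun h => h.2.1.ne' h1⟩
  · rintro ⟨⟨h1, h2, h3⟩, h4⟩
    rcases h1.eq_or_lt with e1 | e1
    · exact Or.inl (Or.inr ⟨e1.symm, h2, h3⟩)
    rcases h2.eq_or_lt with e2 | e2
    · exact Or.inr ⟨e2.symm, h3, h1⟩
    rcases h3.eq_or_lt with e3 | e3
    · exact Or.inl (Or.inl ⟨e3.symm, h1, h2⟩)
    exact absurd ⟨e1, e2, e3⟩ h4

end

end Pool.Agent.H78.Geo
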