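import Pool.Agent.H78.Geo.Defs

/-!
# Vectors, determinants and normalisation
-/

namespace Pool.Agent.H78.Geo

open Set Filter Topology

/-- Three-dimensional Euclidean space. -/
abbrev E3 : Type := EuclideanSpace ℝ (Fin 3)

/-- The determinant. -/
def det3 (u v w : E3) : ℝ :=
  u 0 * (v 1 * w 2 - v 2 * w 1) - u 1 * (v 0 * w 2 - v 2 * w 0) + u 2 * (v 0 * w 1 - v 1 * w 0)

/-- Scalar product. -/
def dot (u v : E3) : ℝ := u 0 * v 0 + u 1 * v 1 + u 2 * v 2

/-- Cross product. -/
noncomputable def crs (u v : E3) : E3 :=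
  WithLp.toLp 2 ![u 1 * v 2 - u 2 * v 1, u 2 * v 0 - u 0 * v 2, u 0 * v 1 - u 1 * v 0]

@[simp] theorem crs_0 (u v : E3) : crs u v 0 = u 1 * v 2 - u 2 * v 1 := rfl
@[simp] theorem crs_1 (u v : E3) : crs u v 1 = u 2 * v 0 - u 0 * v 2 := rfl
@[simp] theorem crs_2 (u v : E3) : crs u v 2 = u 0 * v 1 - u 1 * v 0 := rfl

theorem E3.ext {u v : E3} (h0 : u 0 = v 0) (h1 : u 1 = v 1) (h2 : u 2 = v 2) : u = v := by
  ext i
  fin_cases i
  · exact h0
  · exact h1
  · exact h2

theorem det3_swap23 (a b c : E3) : det3 a c b = - det3 a b c := by simp only [det3]; ring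
theorem det3_swap12 (a b c : E3) : det3 b a c = - det3 a b c := by simp only [det3]; ring
theorem det3_rot (a b c : E3) : det3 b c a = det3 a b c := by simp only [det3]; ring
theorem det3_rot' (a b c : E3) : det3 c a b = det3 a b c := by simp only [det3]; ring

theorem det3_add1 (a a' b c : E3) : det3 (a + a') b c = det3 a b c + det3 a' b c := by
  simp only [det3, PiLp.add_apply]; ring
theorem det3_add2 (a b b' c : E3) : det3 a (b + b') c = det3 a b c + det3 a b' c := by
  simp only [det3, PiLp.add_apply]; ring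
theorem det3_add3 (a b c c' : E3) : det3 a b (c + c') = det3 a b c + det3 a b c' := by
  simp only [det3, PiLp.add_apply]; ring
theorem det3_smul1 (r : ℝ) (a b c : E3) : det3 (r • a) b c = r * det3 a b c := by
  simp only [det3, PiLp.smul_apply, smul_eq_mul]; ring
theorem det3_smul2 (r : ℝ) (a b c : E3) : det3 a (r • b) c = r * det3 a b c := by
  simp only [det3, PiLp.smul_apply, smul_eq_mul]; ring
theorem det3_smul3 (r : ℝ) (a b c : E3) : det3 a b (r • c) = r * det3 a b c := by
  simp only [det3, PiLp.smul_apply, smul_eq_mul]; ring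
theorem det3_neg1 (a b c : E3) : det3 (-a) b c = - det3 a b c := by
  simp only [det3, PiLp.neg_apply]; ring
theorem det3_neg2 (a b c : E3) : det3 a (-b) c = - det3 a b c := by
  simp only [det3, PiLp.neg_apply]; ring
theorem det3_neg3 (a b c : E3) : det3 a b (-c) = - det3 a b c := by
  simp only [det3, PiLp.neg_apply]; ring
@[simp] theorem det3_same12 (a c : E3) : det3 a a c = 0 := by simp only [det3]; ring
@[simp] theorem det3_same23 (a c : E3) : det3 a c c = 0 := by simp only [det3]; ring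
@[simp] theorem det3_same13 (a c : E3) : det3 a c a = 0 := by simp only [det3]; ring
@[simp] theorem det3_zero1 (a c : E3) : det3 0 a c = 0 := by simp [det3]
@[simp] theorem det3_zero2 (a c : E3) : det3 a 0 c = 0 := by simp [det3]
@[simp] theorem det3_zero3 (a c : E3) : det3 a c 0 = 0 := by simp [det3]

/-- Cramer's rule. -/
theorem cramer (a b c y : E3) :
    det3 a b c • y = det3 y b c • a + det3 a y c • b + det3 a b y • c := by
  apply E3.ext <;> simp only [det3, PiLp.add_apply, PiLp.smul_apply, smul_eq_mul] <;> ring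

theorem cramer' {a b c : E3} (h : det3 a b c ≠ 0) (y : E3) :
    y = (det3 y b c / det3 a b c) • a + (det3 a y c / det3 a b c) • b +
      (det3 a b y / det3 a b c) • c := by
  have h1 := cramer a b c y
  have h2 : y = (det3 a b c)⁻¹ • (det3 a b c • y) := by
    rw [smul_smul, inv_mul_cancel₀ h, one_smul]
  rw [h2, h1]
  simp only [smul_add, smul_smul, div_eq_inv_mul]
  congr 1
  · congr 1
    · rw [det3_add1, det3_add1, det3_smul1, det3_smul1, det3_smul1, det3_same12, det3_same13]
      congr 1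
      field_simp
      simp
    · rw [det3_add2, det3_add2, det3_smul2, det3_smul2, det3_smul2, det3_same12, det3_same23]
      congr 1
      field_simp
      simp
  · rw [det3_add3, det3_add3, det3_smul3, det3_smul3, det3_smul3, det3_same13, det3_same23]
    congr 1
    field_simp
    simp

theorem eq_zero_of_det {a b c : E3} (h : det3 a b c ≠ 0) {y : E3} (h1 : det3 y b c = 0)
    (h2 : det3 a y c = 0) (h3 : det3 a b y = 0) : y = 0 := by
  rw [cramer' h y, h1, h2, h3]
  simp

theorem ne_zero_of_det1 {a b c : E3} (h : det3 a b c ≠ 0) : a ≠ 0 := by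
  rintro rfl; exact h (det3_zero1 _ _)
theorem ne_zero_of_det2 {a b c : E3} (h : det3 a b c ≠ 0) : b ≠ 0 := by
  rintro rfl; exact h (det3_zero2 _ _)
theorem ne_zero_of_det3 {a b c : E3} (h : det3 a b c ≠ 0) : c ≠ 0 := by
  rintro rfl; exact h (det3_zero3 _ _)

/-- Normalisation. -/
noncomputable def nrm (v : E3) : S2 :=
  if h : v = 0 then ⟨EuclideanSpace.single 0 1, by simp⟩ else
    ⟨‖v‖⁻¹ • v, by simp [norm_smul, h]⟩

theorem nrm_coe {v : E3} (h : v ≠ 0) : ((nrm v : S2) : E3) = ‖v‖⁻¹ • v := by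
  simp [nrm, h]

theorem norm_inv_pos {v : E3} (h : v ≠ 0) : 0 < ‖v‖⁻¹ := inv_pos.2 (norm_pos_iff.2 h)

theorem S2.ne_zero (x : S2) : (x : E3) ≠ 0 := by
  intro h
  have := x.2
  rw [mem_sphere_zero_iff_norm, h] at this
  simp at this

theorem S2.norm (x : S2) : ‖(x : E3)‖ = 1 := mem_sphere_zero_iff_norm.1 x.2

theorem nrm_smul_coe (x : S2) {c : ℝ} (hc : 0 < c) : nrm (c • (x : E3)) = x := by
  apply Subtype.ext
  rw [nrm_coe (smul_ne_zero hc.ne' x.ne_zero), norm_smul, S2.norm, smul_smul]
  simp [abs_of_pos hc, hc.ne']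

theorem nrm_self (x : S2) : nrm (x : E3) = x := by
  have := nrm_smul_coe x one_pos
  rwa [one_smul] at this

theorem nrm_smul {v : E3} (hv : v ≠ 0) {c : ℝ} (hc : 0 < c) : nrm (c • v) = nrm v := by
  apply Subtype.ext
  rw [nrm_coe (smul_ne_zero hc.ne' hv), nrm_coe hv, norm_smul, smul_smul]
  congr 1
  rw [Real.norm_of_nonneg hc.le]
  field_simp

theorem eq_smul_of_nrm_eq {v w : E3} (hv : v ≠ 0) (hw : w ≠ 0) (h : nrm v = nrm w) :
    ∃ c : ℝ, 0 < c ∧ v = c • w := by
  have h1 := congrArg (fun x : S2 => (x : E3)) h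
  simp only [nrm_coe hv, nrm_coe hw] at h1
  refine ⟨‖v‖ * ‖w‖⁻¹, mul_pos (norm_pos_iff.2 hv) (norm_inv_pos hw), ?_⟩
  rw [← smul_smul, ← h1, smul_smul, mul_inv_cancel₀ (norm_pos_iff.2 hv).ne', one_smul]

theorem continuousAt_nrm {v : E3} (h : v ≠ 0) : ContinuousAt nrm v := by
  rw [Topology.IsInducing.subtypeVal.continuousAt_iff]
  have h1 : ContinuousAt (fun w : E3 => ‖w‖⁻¹ • w) v :=
    (continuousAt_id.norm.inv₀ (norm_ne_zero_iff.2 h)).smul continuousAt_id
  refine h1.congr ?_
  filter_upwards [isOpen_ne.mem_nhds h] with w hw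
  exact (nrm_coe hw).symm

theorem continuous_det3_1 (b c : E3) : Continuous fun y : S2 => det3 (y : E3) b c := by
  have h : ∀ i : Fin 3, Continuous fun y : S2 => (y : E3) i := fun i =>
    (EuclideanSpace.proj (𝕜 := ℝ) i).continuous.comp continuous_subtype_val
  have h0 := h 0
  have h1 := h 1
  have h2 := h 2
  unfold det3
  fun_prop

theorem continuous_det3_2 (a c : E3) : Continuous fun y : S2 => det3 a (y : E3) c := by
  refine (continuous_det3_1 a c).neg.congr fun y => ?_
  rw [det3_swap12]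
  rfl

theorem continuous_det3_3 (a b : E3) : Continuous fun y : S2 => det3 a b (y : E3) := by
  refine (continuous_det3_1 a b).congr fun y => ?_
  rw [det3_rot']

/-- The point `y` is in the closure of `K` if `K` contains the normalisations of `y + t w` for
small `t > 0`. -/
theorem mem_closure_of_push {K : Set S2} {y : S2} (w : E3)
    (h : ∀ᶠ t : ℝ in 𝓝[>] 0, nrm ((y : E3) + t • w) ∈ K) : y ∈ closure K := by
  have h1 : Tendsto (fun t : ℝ => nrm ((y : E3) + t • w)) (𝓝[>] 0) (𝓝 y) := by
    have h2 : ContinuousAt (fun t : ℝ => (y : E3) + t • w) 0 := by fun_prop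
    have h3 : ContinuousAt nrm ((fun t : ℝ => (y : E3) + t • w) 0) := by
      apply continuousAt_nrm
      simpa using y.ne_zero
    have h4 := ContinuousAt.comp (f := fun t : ℝ => (y : E3) + t • w) h3 h2
    have h5 : Tendsto (nrm ∘ fun t : ℝ => (y : E3) + t • w) (𝓝 0) (𝓝 y) := by
      have := h4.tendsto
      simpa [nrm_self] using this
    exact h5.mono_left nhdsWithin_le_nhds
  exact mem_closure_of_tendsto h1 h

/-- The segment (short arc) between the directions `a` and `b`. -/
def seg (a b : E3) : Set S2 := {x | ∃ s t : ℝ, 0 ≤ s ∧ 0 ≤ t ∧ (x : E3) = s • a + t • b}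

theorem seg_symm (a b : E3) : seg a b = seg b a := by
  ext x
  constructor
  · rintro ⟨s, t, hs, ht, h⟩
    exact ⟨t, s, ht, hs, by rw [h, add_comm]⟩
  · rintro ⟨s, t, hs, ht, h⟩
    exact ⟨t, s, ht, hs, by rw [h, add_comm]⟩

theorem mem_seg_iff {a b c : E3} (h : 0 < det3 a b c) (x : S2) :
    x ∈ seg a b ↔ det3 a b x = 0 ∧ 0 ≤ det3 x b c ∧ 0 ≤ det3 a x c := by
  constructor
  · rintro ⟨s, t, hs, ht, hx⟩
    rw [hx, det3_add3, det3_add1, det3_add2, det3_smul3, det3_smul3, det3_smul1, det3_smul1,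
      det3_smul2, det3_smul2]
    simp only [det3_same12, det3_same23, det3_same13, mul_zero, add_zero, zero_add, true_and]
    exact ⟨mul_nonneg hs h.le, mul_nonneg ht h.le⟩
  · rintro ⟨h1, h2, h3⟩
    refine ⟨det3 x b c / det3 a b c, det3 a x c / det3 a b c, div_nonneg h2 h.le,
      div_nonneg h3 h.le, ?_⟩
    conv_lhs => rw [cramer' h.ne' (x : E3), h1]
    simp

end Pool.Agent.H78.Geo
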